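import Pool.Agent.H19.OM.Stm

/-! # Project OM (helper19): module SW (helper59) -/

set_option autoImplicit false

namespace Pool.Agent.H59.OM

open Finset MeasureTheory ProbabilityTheory Pool.Agent.H19.OM
open scoped NNReal

theorem val_le (p L m : ℕ) : val p L m ≤ L := by
  unfold Pool.Agent.H19.OM.val
  refine (card_filter_le _ _).trans ?_
  simp

theorem val_mod (p L m : ℕ) : val p L (m % p ^ L) = val p L m := by
  unfold Pool.Agent.H19.OM.val
  congr 1
  apply filter_congr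
  intro a ha
  rw [mem_Icc] at ha
  exact (Nat.dvd_mod_iff (pow_dvd_pow p ha.2))

/-- re-indexing -/
theorem reidx (p L k : ℕ) (hp : 0 < p) (ψ : (Fin k → ℕ) → ℝ) :
    ∑ r ∈ Fintype.piFinset (fun _ : Fin k => range (p ^ L)), ψ (fun i => val p L (r i + i)) =
      ∑ n ∈ Fintype.piFinset (fun _ : Fin k => range (p ^ L)), ψ (fun i => val p L (n i)) := by
  classical
  have hM : 0 < p ^ L := pow_pos hp L
  set σ : (Fin k → ℕ) → (Fin k → ℕ) := fun r i => (r i + i) % p ^ L with hσ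
  have hinj : Set.InjOn σ (Fintype.piFinset (fun _ : Fin k => range (p ^ L)) : Finset (Fin k → ℕ)) := by
    intro r hr r' hr' h
    rw [Finset.mem_coe, Fintype.mem_piFinset] at hr hr'
    funext i
    have h1 : (r i + i) ≡ (r' i + i) [MOD p ^ L] := congrFun h i
    have h2 := Nat.ModEq.add_right_cancel' _ h1
    exact Nat.ModEq.eq_of_lt_of_lt h2 (mem_range.1 (hr i)) (mem_range.1 (hr' i))
  have himg : (Fintype.piFinset (fun _ : Fin k => range (p ^ L))).image σ = Fintype.piFinset (fun _ : Fin k => range (p ^ L)) := by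
    apply eq_of_subset_of_card_le
    · intro n hn
      obtain ⟨r, _, rfl⟩ := mem_image.1 hn
      rw [Fintype.mem_piFinset]
      intro i
      exact mem_range.2 (Nat.mod_lt _ hM)
    · rw [card_image_of_injOn hinj]
  conv_rhs => rw [← himg]
  rw [sum_image hinj]
  apply sum_congr rfl
  intro r _
  congr 1
  funext i
  exact (val_mod p L _).symm

theorem J_single (p k : ℕ) (L : ℕ → ℕ) (φ : (Fin k → ℕ) → ℝ) :
    J L {p} φ = (∑ n ∈ range (p ^ L p), φ (fun i => val p (L p) (n + i))) / (p : ℝ) ^ L p := by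
  unfold J Mo
  simp

theorem I_single (p k : ℕ) (L : ℕ → ℕ) (φ : (Fin k → ℕ) → ℝ) :
    I L {p} φ = (∑ n ∈ Fintype.piFinset (fun _ : Fin k => range (p ^ L p)), φ (fun i => val p (L p) (n i))) /
      ((p : ℝ) ^ L p) ^ k := by
  unfold I Mo
  simp

theorem sqrt_add_sq {x y : ℝ} (hx : 0 ≤ x) (hy : 0 ≤ y) : Real.sqrt (x ^ 2 + y ^ 2) ≤ x + y := by
  rw [Real.sqrt_le_left (by positivity)]
  nlinarith [mul_nonneg hx hy]

theorem t_SW (hSWA : S_SWA) (hAR1 : S_AR1) (hAR2 : S_AR2) : S_SW := by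
  refine ⟨Real.sqrt (18 * Real.exp (3 * 4) * 36), Real.sqrt_nonneg _, ?_⟩
  intro p k L a hp hL hk hka hLa φ hφ
  have hp0 : (0 : ℝ) < p := by exact_mod_cast hp.pos
  have ha : (0 : ℝ) < a := lt_of_lt_of_le (by exact_mod_cast hk) hka
  have h := hSWA (range (p ^ L p)) (nonempty_range_iff.2 (pow_pos hp.pos _).ne') k (L p)
    (fun r (i : Fin k) => val p (L p) (r + i)) a 4 (by exact_mod_cast ha) (fun r _ i => val_le _ _ _) hLa
    (fun r _ s _ => (hAR1 p (L p) k hp r s).trans (by linarith)) φ hφ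
  rw [card_range] at h
  have e1 : (fun w : Fin k → ℕ => J L {p} (fun u => φ (w + u))) =
      fun w => (∑ r ∈ range (p ^ L p), φ (w + fun i : Fin k => val p (L p) (r + i))) / ((p ^ L p : ℕ) : ℝ) := by
    funext w
    rw [J_single]
    push_cast
    rfl
  have e2 : (fun w : Fin k → ℕ => I L {p} (fun u => φ (w + u))) =
      fun w => (∑ r ∈ Fintype.piFinset (fun _ : Fin k => range (p ^ L p)), φ (w + fun i : Fin k => val p (L p) (r i + i))) /
        ((p ^ L p : ℕ) : ℝ) ^ k := by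
    funext w
    rw [I_single, ← reidx p (L p) k hp.pos (fun u => φ (w + u))]
    push_cast
    rfl
  rw [e1, e2]
  refine h.trans ?_
  refine div_le_div_of_nonneg_right ?_ ha.le
  have h2 := hAR2 p (L p) k hp
  have h3 : (((p ^ L p : ℕ) : ℝ)) ^ 2 = ((p : ℝ) ^ L p) ^ 2 := by push_cast; rfl
  rw [h3]
  have h4 : (k : ℝ) ^ 2 / (p : ℝ) ^ 3 + k / (p : ℝ) ^ 2 =
      ((k : ℝ) / (p * Real.sqrt p)) ^ 2 + (Real.sqrt k / p) ^ 2 := by
    rw [div_pow, div_pow, mul_pow, Real.sq_sqrt hp0.le, Real.sq_sqrt (Nat.cast_nonneg k)]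
    ring
  calc Real.sqrt (18 * Real.exp (3 * 4) * ((∑ r ∈ range (p ^ L p), ∑ s ∈ range (p ^ L p),
        (∑ i : Fin k, (val p (L p) (r + i) : ℝ) * val p (L p) (s + i)) ^ 2) / ((p : ℝ) ^ L p) ^ 2))
      ≤ Real.sqrt (18 * Real.exp (3 * 4) * (36 * ((k : ℝ) ^ 2 / (p : ℝ) ^ 3 + k / (p : ℝ) ^ 2))) := by
        apply Real.sqrt_le_sqrt
        exact mul_le_mul_of_nonneg_left h2 (by positivity)
    _ = Real.sqrt (18 * Real.exp (3 * 4) * 36) * Real.sqrt (((k : ℝ) / (p * Real.sqrt p)) ^ 2 + (Real.sqrt k / p) ^ 2) := by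
        rw [← Real.sqrt_mul (by positivity), h4]
        congr 1
        ring
    _ ≤ Real.sqrt (18 * Real.exp (3 * 4) * 36) * ((k : ℝ) / (p * Real.sqrt p) + Real.sqrt k / p) :=
        mul_le_mul_of_nonneg_left (sqrt_add_sq (by positivity) (by positivity)) (Real.sqrt_nonneg _)

end Pool.Agent.H59.OM
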